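import Pool.Agent.helper54.FH.F2

set_option autoImplicit false

/-!
# FH project: fibre bound (module F1)
-/

namespace Pool.Agent.helper15.FH

open Finset Pool.Agent.helper32.Cant

noncomputable section

variable (c : Cfg)

/-- the position at `k` is constant on the fibre of `ω` -/
def F54cst (ω : W c) (k : Fin c.N) : Prop := ∀ ω', c.f ω' = c.f ω → (ω' k).1 = (ω k).1

theorem F54cst_congr {ω ω' : W c} (k : Fin c.N) (h : c.f ω' = c.f ω) :
    F54cst c ω' k ↔ F54cst c ω k := by
  have key : ∀ {η η' : W c}, c.f η' = c.f η → F54cst c η k → F54cst c η' k := by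
    intro η η' hh hc ω'' h''
    rw [hc ω'' (h''.trans hh), hc η' hh]
  exact ⟨key h.symm, key h⟩

open Classical in
/-- the weight at one place -/
def F54phi (ω : W c) (k : Fin c.N) (p : c.X × Y) : ℝ :=
  if F54cst c ω k then ind (p.1 = (ω k).1) + 1 / c.g * ind (c.Γ.Adj (ω k).1 p.1)
  else ind (∃ ω', c.f ω' = c.f ω ∧ (ω' k).1 = p.1)

theorem F54phi_nonneg (ω : W c) (k : Fin c.N) (p : c.X × Y) : 0 ≤ F54phi c ω k p := by
  unfold F54phi
  have := g_pos c
  split_ifs
  · exact add_nonneg (ind_nonneg _) (mul_nonneg (by positivity) (ind_nonneg _))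
  · exact ind_nonneg _

theorem F54_sumX (F : c.X → ℝ) : ∑ p : c.X × Y, F p.1 = 10 * ∑ x, F x := by
  rw [Fintype.sum_prod_type, mul_sum]
  refine sum_congr rfl fun x _ => ?_
  simp only [sum_const, nsmul_eq_mul]
  congr 1

theorem F54_sum_eq (a : c.X) : ∑ x, ind (x = a) = 1 := by
  rw [sum_eq_single a]
  · exact ind_of rfl
  · intro b _ hb
    exact ind_of_not hb
  · intro h
    exact absurd (mem_univ _) h

theorem F54phi_sum (ω : W c) (k : Fin c.N) : ∑ p, F54phi c ω k p ≤ 20 := by
  have hg := g_pos c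
  by_cases h : F54cst c ω k
  · have e : ∀ p : c.X × Y, F54phi c ω k p
        = ind (p.1 = (ω k).1) + 1 / c.g * ind (c.Γ.Adj (ω k).1 p.1) := fun p => by
      unfold F54phi
      rw [if_pos h]
    rw [sum_congr rfl fun p _ => e p,
      F54_sumX c (fun x => ind (x = (ω k).1) + 1 / c.g * ind (c.Γ.Adj (ω k).1 x)),
      sum_add_distrib, F54_sum_eq, ← mul_sum, c.good.reg]
    have : 1 / (c.g : ℝ) * c.g = 1 := by field_simp
    rw [this]
    norm_num
  · have e : ∀ p : c.X × Y, F54phi c ω k p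
        = ind (∃ ω', c.f ω' = c.f ω ∧ (ω' k).1 = p.1) := fun p => by
      unfold F54phi
      rw [if_neg h]
    rw [sum_congr rfl fun p _ => e p,
      F54_sumX c (fun x => ind (∃ ω', c.f ω' = c.f ω ∧ (ω' k).1 = x))]
    unfold F54cst at h
    push Not at h
    obtain ⟨ω1, h1, h2⟩ := h
    have : ∑ x, ind (∃ ω', c.f ω' = c.f ω ∧ (ω' k).1 = x)
        ≤ ∑ x, (ind (x = (ω k).1) + ind (x = (ω1 k).1)) := by
      refine sum_le_sum fun x _ => ?_
      by_cases hx : ∃ ω', c.f ω' = c.f ω ∧ (ω' k).1 = x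
      · obtain ⟨ω', a1, a2⟩ := hx
        by_cases h3 : (ω' k).1 = (ω k).1
        · rw [ind_of (show x = (ω k).1 from a2.symm.trans h3)]
          have := ind_nonneg (x = (ω1 k).1)
          have := ind_le_one (∃ ω', c.f ω' = c.f ω ∧ (ω' k).1 = x)
          linarith
        · rw [ind_of (show x = (ω1 k).1 from a2.symm.trans (F54_two c k h1 a1 h2 h3))]
          have := ind_nonneg (x = (ω k).1)
          have := ind_le_one (∃ ω', c.f ω' = c.f ω ∧ (ω' k).1 = x)
          linarith
      · rw [ind_of_not hx]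
        exact add_nonneg (ind_nonneg _) (ind_nonneg _)
    rw [sum_add_distrib, F54_sum_eq, F54_sum_eq] at this
    linarith

/-- the value of the weight on the support -/
theorem F54phi_val {z : O c} (hz : 0 < mu c z) (k : Fin c.N) :
    0 < F54phi c z.1 k (z.2 k) ∧ - Real.log (F54phi c z.1 k (z.2 k))
      = Real.log c.g * ind (F54cst c z.1 k ∧ (z.1 k).1 ≠ (z.2 k).1) := by
  have hg := g_pos c
  by_cases h : F54cst c z.1 k
  · have e : F54phi c z.1 k (z.2 k)
        = ind ((z.2 k).1 = (z.1 k).1) + 1 / c.g * ind (c.Γ.Adj (z.1 k).1 (z.2 k).1) := by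
      unfold F54phi
      rw [if_pos h]
    rw [e]
    by_cases h1 : (z.1 k).1 = (z.2 k).1
    · have e2 : ind (c.Γ.Adj (z.1 k).1 (z.2 k).1) = 0 := ind_of_not (by
        rw [h1]
        exact c.Γ.irrefl)
      have e3 : ind (F54cst c z.1 k ∧ (z.1 k).1 ≠ (z.2 k).1) = 0 :=
        ind_of_not (fun h' => h'.2 h1)
      rw [ind_of h1.symm, e2, e3, mul_zero, add_zero, mul_zero, Real.log_one, neg_zero]
      exact ⟨one_pos, rfl⟩
    · have h2 : c.Γ.Adj (z.1 k).1 (z.2 k).1 := by
        rcases mu_pos_x c hz k with h2 | h2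
        · exact absurd h2 h1
        · exact h2
      rw [ind_of_not (fun h' => h1 h'.symm), ind_of h2, ind_of (⟨h, h1⟩ : _ ∧ _), zero_add,
        mul_one, mul_one, one_div, Real.log_inv, neg_neg]
      exact ⟨by positivity, rfl⟩
  · have e : F54phi c z.1 k (z.2 k)
        = ind (∃ ω', c.f ω' = c.f z.1 ∧ (ω' k).1 = (z.2 k).1) := by
      unfold F54phi
      rw [if_neg h]
    have hex : ∃ ω', c.f ω' = c.f z.1 ∧ (ω' k).1 = (z.2 k).1 := by
      unfold F54cst at h
      push Not at h
      obtain ⟨ω1, h1, h2⟩ := h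
      by_contra hc
      push Not at hc
      have a0 := hc z.1 rfl
      have a1 := hc ω1 h1
      rcases fib_compat c h1 k with b1 | b1
      · rcases mu_fib c hz (ω := z.1) rfl k with b2 | b2
        · rcases mu_fib c hz h1 k with b3 | b3
          · exact c.good.tf _ _ _ b1 b2 b3
          · exact a1 b3.1
        · exact a0 b2.1
      · exact h2 b1.1
    rw [e, ind_of hex, ind_of_not (fun h' => h h'.1), Real.log_one, neg_zero, mul_zero]
    exact ⟨one_pos, rfl⟩

/-- at one place: the minority is at most the probability to differ at a non-constant place -/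
theorem F54_place (k : Fin c.N) : ex (mu c) (fun z => mn c z.1 k)
    ≤ ex (mu c) (fun z => ind (¬ F54cst c z.1 k ∧ (z.1 k).1 ≠ (z.2 k).1)) := by
  unfold ex
  rw [Fintype.sum_prod_type_right, Fintype.sum_prod_type_right]
  refine sum_le_sum fun η _ => ?_
  show ∑ ω, mu c (ω, η) * mn c ω k
    ≤ ∑ ω, mu c (ω, η) * ind (¬ F54cst c ω k ∧ (ω k).1 ≠ (η k).1)
  rw [F54_avg c (fun ω => mu c (ω, η)) (fun ω => mn c ω k) (fun ω ω' h => mu_congr c h η),
    F54_avg c (fun ω => mu c (ω, η)) (fun ω => ind (¬ F54cst c ω k ∧ (ω k).1 ≠ (η k).1))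
      (fun ω ω' h => mu_congr c h η)]
  refine sum_le_sum fun ω _ => mul_le_mul_of_nonneg_left ?_
    (div_nonneg (mu_nonneg c _) (FF_pos c ω).le)
  have hF := FF_pos c ω
  have e1 : ∑ ω', ind (c.f ω' = c.f ω) * mn c ω' k = min (F54ow c k ω) (F54df c k ω) := by
    have : ∑ ω', ind (c.f ω' = c.f ω) * mn c ω' k
        = ∑ ω', ind (c.f ω' = c.f ω) * (min (F54ow c k ω) (F54df c k ω) / FF c ω) := by
      refine sum_congr rfl fun ω' _ => ?_
      by_cases h : c.f ω' = c.f ω
      · rw [F54_mn c k h]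
      · rw [ind_of_not h, zero_mul, zero_mul]
    rw [this, ← sum_mul]
    show FF c ω * (min (F54ow c k ω) (F54df c k ω) / FF c ω) = _
    field_simp
  rw [e1]
  by_cases hcst : F54cst c ω k
  · have : F54df c k ω = 0 := by
      unfold F54df
      refine sum_eq_zero fun ω' _ => ind_of_not ?_
      rintro ⟨h1, h2⟩
      exact h2 (hcst ω' h1)
    rw [this]
    refine (min_le_right _ _).trans (sum_nonneg fun ω' _ => ?_)
    exact mul_nonneg (ind_nonneg _) (ind_nonneg _)
  · by_cases hη : (ω k).1 = (η k).1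
    · refine (min_le_right _ _).trans ?_
      unfold F54df
      refine sum_le_sum fun ω' _ => ?_
      by_cases h : c.f ω' = c.f ω ∧ (ω' k).1 ≠ (ω k).1
      · rw [ind_of h, ind_of h.1, ind_of]
        · norm_num
        · exact ⟨fun h' => hcst ((F54cst_congr c k h.1).1 h'), by rw [← hη]; exact h.2⟩
      · rw [ind_of_not h]
        exact mul_nonneg (ind_nonneg _) (ind_nonneg _)
    · refine (min_le_left _ _).trans ?_
      unfold F54ow
      refine sum_le_sum fun ω' _ => ?_
      by_cases h : c.f ω' = c.f ω ∧ (ω' k).1 = (ω k).1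
      · rw [ind_of h, ind_of h.1, ind_of]
        · norm_num
        · exact ⟨fun h' => hcst ((F54cst_congr c k h.1).1 h'), by rw [h.2]; exact hη⟩
      · rw [ind_of_not h]
        exact mul_nonneg (ind_nonneg _) (ind_nonneg _)

theorem FB1 : Hc (mu c) (fun z => z.2) (fun z => z.1)
    ≤ c.N * Real.log 20 + Real.log c.g * (ex (mu c) (kd c)
      - ex (mu c) (fun z => ∑ k, mn c z.1 k)) := by
  have hμ := mu_prob c
  have hg := g_pos c
  have h1 := gibbs hμ (fun z : O c => z.2) (fun z => z.1)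
    (fun z ω' => ∏ k, F54phi c z.1 k (ω' k)) (C := 20 ^ c.N) (by positivity)
    (fun z ω' => prod_nonneg fun k _ => F54phi_nonneg c _ _ _)
    (fun z z' h => by
      have h' : z.1 = z'.1 := h
      funext ω'
      show ∏ k, F54phi c z.1 k (ω' k) = ∏ k, F54phi c z'.1 k (ω' k)
      rw [h'])
    (fun z => by
      have : ∑ ω' : W c, ∏ k, F54phi c z.1 k (ω' k) = ∏ k, ∑ p, F54phi c z.1 k p := by
        rw [prod_univ_sum, Fintype.piFinset_univ]
      rw [this]
      calc ∏ k : Fin c.N, ∑ p, F54phi c z.1 k p ≤ ∏ _k : Fin c.N, (20 : ℝ) :=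
            prod_le_prod (fun k _ => sum_nonneg fun p _ => F54phi_nonneg c _ _ _)
              (fun k _ => F54phi_sum c _ _)
        _ = 20 ^ c.N := by rw [prod_const, card_univ, Fintype.card_fin])
    (fun z hz => prod_pos fun k _ => (F54phi_val c hz k).1)
  refine h1.trans ?_
  have h2 : ex (mu c) (fun z => - Real.log (∏ k, F54phi c z.1 k (z.2 k)))
      = Real.log c.g * ∑ k, ex (mu c) (fun z =>
        ind (F54cst c z.1 k ∧ (z.1 k).1 ≠ (z.2 k).1)) := by
    rw [← ex_sum, ← ex_smul]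
    refine ex_congr hμ.1 fun z hz => ?_
    rw [Real.log_prod (fun k _ => (F54phi_val c hz k).1.ne'), ← sum_neg_distrib, mul_sum]
    exact sum_congr rfl fun k _ => (F54phi_val c hz k).2
  rw [h2, Real.log_pow]
  have h3 : ∑ k, ex (mu c) (fun z => ind (F54cst c z.1 k ∧ (z.1 k).1 ≠ (z.2 k).1))
      ≤ ex (mu c) (kd c) - ex (mu c) (fun z => ∑ k, mn c z.1 k) := by
    have e : ex (mu c) (kd c) = ∑ k, ex (mu c) (fun z => ind ((z.1 k).1 ≠ (z.2 k).1)) := by
      rw [← ex_sum]
      rfl
    rw [e, ex_sum, ← sum_sub_distrib]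
    refine sum_le_sum fun k _ => ?_
    have a1 := F54_place c k
    have a2 : ex (mu c) (fun z => ind ((z.1 k).1 ≠ (z.2 k).1))
        = ex (mu c) (fun z => ind (F54cst c z.1 k ∧ (z.1 k).1 ≠ (z.2 k).1))
          + ex (mu c) (fun z => ind (¬ F54cst c z.1 k ∧ (z.1 k).1 ≠ (z.2 k).1)) := by
      rw [← ex_add]
      congr 1
      funext z
      by_cases b1 : F54cst c z.1 k <;> by_cases b2 : (z.1 k).1 = (z.2 k).1 <;>
        simp [ind, b1, b2]
    rw [a2]
    linarith
  have h4 : 0 ≤ Real.log c.g := Real.log_nonneg (by exact_mod_cast c.hg)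
  have h5 := mul_le_mul_of_nonneg_left h3 h4
  linarith

end

end Pool.Agent.helper15.FH
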