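import Pool.Agent.helper15.FH.CI

set_option autoImplicit false

/-!
# FH project: entropy of the positions on a fibre (module F2)
-/

namespace Pool.Agent.helper15.FH

open Finset Pool.Agent.helper32.Cant

noncomputable section

variable (c : Cfg)

/-- number of elements of the fibre with the same position at `k` -/
def F54ow (k : Fin c.N) (ω : W c) : ℝ :=
  ∑ ω' : W c, ind (c.f ω' = c.f ω ∧ (ω' k).1 = (ω k).1)

/-- number of elements of the fibre with another position at `k` -/
def F54df (k : Fin c.N) (ω : W c) : ℝ :=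
  ∑ ω' : W c, ind (c.f ω' = c.f ω ∧ (ω' k).1 ≠ (ω k).1)

theorem F54_add (k : Fin c.N) (ω : W c) : F54ow c k ω + F54df c k ω = FF c ω := by
  unfold F54ow F54df FF
  rw [← sum_add_distrib]
  refine sum_congr rfl fun ω' _ => ?_
  by_cases h1 : c.f ω' = c.f ω <;> by_cases h2 : (ω' k).1 = (ω k).1 <;> simp [ind, h1, h2]

theorem F54ow_pos (k : Fin c.N) (ω : W c) : 0 < F54ow c k ω := by
  unfold F54ow
  refine lt_of_lt_of_le (b := ind (c.f ω = c.f ω ∧ (ω k).1 = (ω k).1))
    (by rw [ind_of ⟨rfl, rfl⟩]; exact one_pos) ?_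
  exact single_le_sum (f := fun ω' => ind (c.f ω' = c.f ω ∧ (ω' k).1 = (ω k).1))
    (fun ω' _ => ind_nonneg _) (mem_univ ω)

theorem F54df_nonneg (k : Fin c.N) (ω : W c) : 0 ≤ F54df c k ω :=
  sum_nonneg fun _ _ => ind_nonneg _

theorem F54fr (k : Fin c.N) (ω : W c) : fr c ω k = F54df c k ω / FF c ω := rfl

/-- at most two positions on a fibre -/
theorem F54_two {ω ω' ω'' : W c} (k : Fin c.N) (h : c.f ω' = c.f ω) (h' : c.f ω'' = c.f ω)
    (h1 : (ω' k).1 ≠ (ω k).1) (h2 : (ω'' k).1 ≠ (ω k).1) : (ω'' k).1 = (ω' k).1 := by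
  by_contra hc
  have a1 := fib_compat c h k
  have a2 := fib_compat c h' k
  have a3 := fib_compat c (h'.trans h.symm) k
  rcases a1 with a1 | a1
  · rcases a2 with a2 | a2
    · rcases a3 with a3 | a3
      · exact c.good.tf _ _ _ a3 a1 a2
      · exact hc a3.1
    · exact h2 a2.1
  · exact h1 a1.1

/-- an element at the other position sees the complementary count -/
theorem F54_swap {ω ω' : W c} (k : Fin c.N) (h : c.f ω' = c.f ω) (h1 : (ω' k).1 ≠ (ω k).1) :
    F54ow c k ω' = F54df c k ω := by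
  unfold F54ow F54df
  refine sum_congr rfl fun ω'' _ => ind_congr ?_
  constructor
  · rintro ⟨h2, h3⟩
    exact ⟨h2.trans h, by rw [h3]; exact h1⟩
  · rintro ⟨h2, h3⟩
    exact ⟨h2.trans h.symm, F54_two c k h h2 h1 h3⟩

theorem F54_same {ω ω' : W c} (k : Fin c.N) (h : c.f ω' = c.f ω) (h1 : (ω' k).1 = (ω k).1) :
    F54ow c k ω' = F54ow c k ω := by
  unfold F54ow
  refine sum_congr rfl fun ω'' _ => ind_congr ?_
  rw [h, h1]

theorem F54_FF {ω ω' : W c} (h : c.f ω' = c.f ω) : FF c ω' = FF c ω := by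
  unfold FF
  rw [h]

/-- the minority fraction is constant on the fibre -/
theorem F54_mn {ω ω' : W c} (k : Fin c.N) (h : c.f ω' = c.f ω) :
    mn c ω' k = min (F54ow c k ω) (F54df c k ω) / FF c ω := by
  have hF := FF_pos c ω
  have e0 : ∀ η, c.f η = c.f ω → mn c η k = min (F54ow c k η) (F54df c k η) / FF c ω := by
    intro η hη
    unfold mn
    rw [F54fr, F54_FF c hη]
    have : 1 - F54df c k η / FF c ω = F54ow c k η / FF c ω := by
      rw [eq_div_iff hF.ne', sub_mul, div_mul_cancel₀ _ hF.ne', one_mul, ← F54_FF c hη,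
        ← F54_add c k η]
      ring
    rw [this, min_comm, min_div_div_right hF.le]
  rw [e0 ω' h]
  by_cases h1 : (ω' k).1 = (ω k).1
  · have a1 := F54_same c k h h1
    have a2 : F54df c k ω' = F54df c k ω := by
      have b1 := F54_add c k ω
      have b2 := F54_add c k ω'
      rw [F54_FF c h] at b2
      linarith
    rw [a1, a2]
  · have a1 := F54_swap c k h h1
    have a2 : F54df c k ω' = F54ow c k ω := by
      have b1 := F54_add c k ω
      have b2 := F54_add c k ω'
      rw [F54_FF c h] at b2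
      linarith
    rw [a1, a2, min_comm]

theorem F54_real1 {a n : ℝ} (ha : 0 < a) (hn : 0 < n) (h2 : a ≤ n) :
    a * Real.log (n / a) + (n - a) * Real.log (n / (n - a)) ≤ 2 * √(a * n) := by
  have hs : a * Real.log (n / a) ≤ 2 * √(a * n) - 2 * a := by
    have h3 : Real.log (n / a) = 2 * Real.log (√(n / a)) := by
      rw [Real.log_sqrt (by positivity)]
      ring
    have h4 := Real.log_le_sub_one_of_pos (show 0 < √(n / a) from Real.sqrt_pos.2 (by positivity))
    have h5 : a * √(n / a) = √(a * n) := by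
      rw [show a * n = a ^ 2 * (n / a) by field_simp, Real.sqrt_mul (sq_nonneg _),
        Real.sqrt_sq ha.le]
    rw [h3]
    nlinarith
  rcases h2.eq_or_lt with h | h
  · rw [h, sub_self, zero_mul]
    rw [h] at hs
    linarith [hn.le]
  · have hb : 0 < n - a := by linarith
    have h4 := Real.log_le_sub_one_of_pos (show 0 < n / (n - a) by positivity)
    have h5 : (n - a) * Real.log (n / (n - a)) ≤ a := by
      calc (n - a) * Real.log (n / (n - a)) ≤ (n - a) * (n / (n - a) - 1) :=
            mul_le_mul_of_nonneg_left h4 hb.le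
        _ = a := by
          field_simp
          ring
    linarith

theorem F54_real {a b : ℝ} (ha : 0 < a) (hb : 0 < b) :
    a * Real.log ((a + b) / a) + b * Real.log ((a + b) / b)
      ≤ 2 * ((a + b) * √(min a b / (a + b))) := by
  have hn : 0 < a + b := add_pos ha hb
  have key : ∀ t, 0 < t → (a + b) * √(t / (a + b)) = √(t * (a + b)) := by
    intro t ht
    rw [show t * (a + b) = (a + b) ^ 2 * (t / (a + b)) by field_simp,
      Real.sqrt_mul (sq_nonneg _), Real.sqrt_sq hn.le]
  rw [key _ (lt_min ha hb)]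
  rcases le_total a b with h | h
  · rw [min_eq_left h]
    have := F54_real1 ha hn (by linarith)
    rw [show a + b - a = b by ring] at this
    exact this
  · rw [min_eq_right h]
    have := F54_real1 hb hn (by linarith)
    rw [show a + b - b = a by ring] at this
    linarith

/-- sum over a fibre -/
theorem F54_fibre (k : Fin c.N) (ω : W c) :
    ∑ ω', ind (c.f ω' = c.f ω) * Real.log (FF c ω' / F54ow c k ω')
      ≤ ∑ ω', ind (c.f ω' = c.f ω) * (2 * √(mn c ω' k)) := by
  have hF := FF_pos c ω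
  have ho := F54ow_pos c k ω
  have hd := F54df_nonneg c k ω
  have hadd := F54_add c k ω
  have e1 : ∑ ω', ind (c.f ω' = c.f ω) * (2 * √(mn c ω' k))
      = FF c ω * (2 * √(min (F54ow c k ω) (F54df c k ω) / FF c ω)) := by
    rw [show FF c ω = ∑ ω' : W c, ind (c.f ω' = c.f ω) from rfl, sum_mul]
    refine sum_congr rfl fun ω' _ => ?_
    by_cases h : c.f ω' = c.f ω
    · rw [F54_mn c k h]
      rfl
    · rw [ind_of_not h, zero_mul, zero_mul]
  have e2 : ∑ ω', ind (c.f ω' = c.f ω) * Real.log (FF c ω' / F54ow c k ω')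
      = F54ow c k ω * Real.log (FF c ω / F54ow c k ω)
        + F54df c k ω * Real.log (FF c ω / F54df c k ω) := by
    rw [show F54ow c k ω * Real.log (FF c ω / F54ow c k ω)
        = (∑ ω' : W c, ind (c.f ω' = c.f ω ∧ (ω' k).1 = (ω k).1))
          * Real.log (FF c ω / F54ow c k ω) from rfl,
      show F54df c k ω * Real.log (FF c ω / F54df c k ω)
        = (∑ ω' : W c, ind (c.f ω' = c.f ω ∧ (ω' k).1 ≠ (ω k).1))
          * Real.log (FF c ω / F54df c k ω) from rfl, sum_mul, sum_mul, ← sum_add_distrib]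
    refine sum_congr rfl fun ω' _ => ?_
    by_cases h : c.f ω' = c.f ω
    · by_cases h1 : (ω' k).1 = (ω k).1
      · rw [ind_of h, ind_of (⟨h, h1⟩ : _ ∧ _), ind_of_not (fun h' => h'.2 h1), zero_mul,
          add_zero, F54_FF c h, F54_same c k h h1]
      · rw [ind_of h, ind_of_not (fun h' => h1 h'.2), ind_of (⟨h, h1⟩ : _ ∧ _), zero_mul,
          zero_add, F54_FF c h, F54_swap c k h h1]
    · rw [ind_of_not h, ind_of_not (fun h' => h h'.1), ind_of_not (fun h' => h h'.1)]
      ring
  rw [e1, e2]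
  rcases hd.eq_or_lt with h | h
  · rw [← h, zero_mul, add_zero]
    have h1 : F54ow c k ω = FF c ω := by linarith
    rw [h1, div_self hF.ne', Real.log_one, mul_zero]
    positivity
  · have := F54_real ho h
    rw [hadd] at this
    linarith

/-- weight of the first vertex -/
def F54S (ω : W c) : ℝ := ∑ η, mu c (ω, η)

theorem F54S_nonneg (ω : W c) : 0 ≤ F54S c ω := sum_nonneg fun _ _ => mu_nonneg c _

theorem F54S_congr {ω ω' : W c} (h : c.f ω = c.f ω') : F54S c ω = F54S c ω' := by
  unfold F54S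
  exact sum_congr rfl fun η _ => mu_congr c h η

/-- averaging over the fibres -/
theorem F54_avg (m h : W c → ℝ) (hm : ∀ ω ω', c.f ω = c.f ω' → m ω = m ω') :
    ∑ ω, m ω * h ω = ∑ ω, m ω / FF c ω * ∑ ω', ind (c.f ω' = c.f ω) * h ω' := by
  simp only [mul_sum]
  rw [sum_comm]
  refine sum_congr rfl fun ω' _ => ?_
  have hF := FF_pos c ω'
  have e : ∀ ω, m ω / FF c ω * (ind (c.f ω' = c.f ω) * h ω')
      = ind (c.f ω = c.f ω') * (m ω' / FF c ω' * h ω') := by
    intro ω
    by_cases hh : c.f ω' = c.f ω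
    · rw [ind_of hh, ind_of hh.symm, F54_FF c hh, hm ω' ω hh]
      ring
    · rw [ind_of_not hh, ind_of_not (fun h' => hh h'.symm)]
      ring
  rw [sum_congr rfl fun ω _ => e ω, ← sum_mul]
  show m ω' * h ω' = FF c ω' * (m ω' / FF c ω' * h ω')
  field_simp

theorem F54_ex_fst (h : W c → ℝ) : ex (mu c) (fun z => h z.1) = ∑ ω, F54S c ω * h ω := by
  unfold ex F54S
  rw [Fintype.sum_prod_type]
  refine sum_congr rfl fun ω _ => ?_
  rw [sum_mul]

theorem F54_pm (k : Fin c.N) (z : O c) :
    pm (mu c) (fun z => (fw c z, x1 c z k)) z = F54ow c k z.1 * F54S c z.1 := by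
  unfold pm F54ow F54S
  rw [Fintype.sum_prod_type, sum_mul]
  refine sum_congr rfl fun y1 _ => ?_
  rw [mul_sum]
  refine sum_congr rfl fun y2 _ => ?_
  by_cases h : c.f y1 = c.f z.1 ∧ (y1 k).1 = (z.1 k).1
  · rw [ind_of h, ind_of (show ((fw c (y1, y2), x1 c (y1, y2) k) = (fw c z, x1 c z k)) from
      Prod.ext h.1 h.2), mul_one, one_mul, mu_congr c h.1]
  · rw [ind_of_not h, ind_of_not (fun h' => h ⟨congrArg Prod.fst h', congrArg Prod.snd h'⟩),
      mul_zero, zero_mul]

theorem F54_one (k : Fin c.N) : Hc (mu c) (fun z => x1 c z k) (fw c)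
    ≤ 2 * ex (mu c) (fun z => √(mn c z.1 k)) := by
  have hμ := mu_prob c
  have e1 : Hc (mu c) (fun z => x1 c z k) (fw c)
      = ex (mu c) (fun z => Real.log (FF c z.1 / F54ow c k z.1)) := by
    unfold Hc
    refine ex_congr hμ.1 fun z hz => ?_
    rw [F54_pm, pm_fw]
    have h1 : 0 < F54S c z.1 := by
      refine lt_of_lt_of_le hz ?_
      exact single_le_sum (f := fun y2 => mu c (z.1, y2)) (fun y2 _ => mu_nonneg c _)
        (mem_univ z.2)
    congr 1
    exact mul_div_mul_right _ _ h1.ne'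
  rw [e1, ← ex_smul, F54_ex_fst c (fun ω => Real.log (FF c ω / F54ow c k ω)),
    F54_ex_fst c (fun ω => 2 * √(mn c ω k)),
    F54_avg c (F54S c) _ (fun ω ω' h => F54S_congr c h),
    F54_avg c (F54S c) (fun ω => 2 * √(mn c ω k)) (fun ω ω' h => F54S_congr c h)]
  exact sum_le_sum fun ω _ => mul_le_mul_of_nonneg_left (F54_fibre c k ω)
    (div_nonneg (F54S_nonneg c ω) (FF_pos c ω).le)

theorem FB2 : Hc (mu c) (x1 c) (fw c) ≤ 2 * ex (mu c) (fun z => ∑ k, √(mn c z.1 k)) := by
  have hμ := mu_prob c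
  refine (Hc_pi_le hμ (x1 c) (fw c)).trans ?_
  rw [ex_sum, mul_sum]
  exact sum_le_sum fun k _ => F54_one c k

end

end Pool.Agent.helper15.FH
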